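import Pool.Agent.Results.MP_fb225e_nt.JensenRayClassFields
import Pool.Agent.TH99.RJ.WE

/-!
# The number of non-real zeros of the Jensen polynomials of `L(E/K, s)` for the ray class fields `K`
of `ℚ(i)`

`E : y² = x³ - D x`, and `K` is a ray class field of `ℚ(i)` whose modulus is divisible by `2 + 2i` and
which contains a fourth root of `D` (definitions of the starting file
`Pool.Agent.Results.MP_fb225e_nt.JensenRayClassFields`).  The Riemann hypothesis for `L(E/K, s)` holds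
if and only if the Jensen polynomials `jensen Λ d n` of the completed L-function at the central point
`s = 1` have no zeros outside of `(-∞, 0]`.  We prove that, for all `d` and `n`, they have at most
`C d ^ (2/3) log (d + 1)` zeros outside of `(-∞, 0]`.
-/

set_option autoImplicit false

open Complex NumberField IsDedekindDomain Polynomial
open scoped ComplexConjugate

namespace Pool.Agent.Results.MP_fb225e_nt.JensenNonReal

open Pool.Agent.Results.MP_fb225e_nt.JensenRayClassFields (IsRayClassField Possible exceptional IsL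
  IsCompletion EulerQuot gamma jensen conv)

/-- The number of complex zeros of a real polynomial outside of the half-line `(-∞, 0]`, counted with
multiplicity (`0` for the zero polynomial). -/
noncomputable def outside (P : ℝ[X]) : ℕ :=
  ((P.map (algebraMap ℝ ℂ)).roots.filter fun z => ¬ (z.im = 0 ∧ z.re ≤ 0)).card

/-- **Main theorem.**  Here `2 * Nat.card art.range = 2 [K : ℚ(i)] = [K : ℚ]`. -/
theorem result (q : GaussianInt) (hq : q ≠ 0) (h2 : (⟨2, 2⟩ : GaussianInt) ∣ q)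
    (K : Type) [Field K] [NumberField K] (ι : GaussianInt →+* 𝓞 K)
    (art : (GaussianInt ⧸ Ideal.span {q})ˣ →* (𝓞 K ≃+* 𝓞 K)) (hK : IsRayClassField q K ι art)
    (D : ℤ) (hD : D ≠ 0) (hd : ∃ d : 𝓞 K, d ^ 4 = (D : 𝓞 K))
    (a ε : HeightOneSpectrum (𝓞 K) → ℤ)
    (hpos : ∀ v ∈ exceptional q ι D, Possible (Ideal.absNorm v.asIdeal) (a v) (ε v)) :
    (exceptional q ι D).Finite ∧ ∃ L Λ : ℂ → ℂ, IsL q ι D a ε L ∧
      IsCompletion (2 * Nat.card art.range) L Λ ∧
      (∃ C : ℝ, ∀ d n : ℕ,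
        (outside (jensen Λ d n) : ℝ) ≤ C * ((d : ℝ) ^ (2 / 3 : ℝ) * Real.log (d + 1))) ∧
      ((∀ s : ℂ, 1 / 2 < s.re → L s = 0 → s.re = 1) ↔
        ∀ d n : ℕ, outside (jensen Λ d n) = 0) := by
  choose cd pr hp using H385.prim_exists
  classical
  have hprim : ∀ q : GaussianInt, q ≠ 0 → ∀ χ ∈ H385.FQs q,
      (if h : q ≠ 0 ∧ H385.chiZ q χ H385.im1 = -I then cd q h.1 χ h.2 else 1) ∣ q ∧
      Pool.Agent.H304R3.HK.HC
        (if h : q ≠ 0 ∧ H385.chiZ q χ H385.im1 = -I then cd q h.1 χ h.2 else 1)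
        (if h : q ≠ 0 ∧ H385.chiZ q χ H385.im1 = -I then pr q h.1 χ h.2 else 1) ∧
      ∀ a : GaussianInt, IsCoprime a q →
        (if h : q ≠ 0 ∧ H385.chiZ q χ H385.im1 = -I then pr q h.1 χ h.2 else 1) a =
          H385.chiZ q χ a := by
    intro q hq χ hχ
    have h := ((H385.fq_finite q hq).2.2 χ).1 hχ
    rw [dif_pos ⟨hq, h⟩, dif_pos ⟨hq, h⟩]
    exact hp q hq χ h
  obtain ⟨hfin, L, Λ, B, A, hA, hL, hprod, hΛ, hfe, hreal, hBq, hB, hB0, hkey, hJ⟩ :=
    Pool.Agent.TH99.RJ.WE.mainM _ _ hprim hq h2 K ι art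
      ⟨hK.invariants, hK.kernel, hK.unramified, hK.frobenius⟩ hD hd a ε hpos
  obtain ⟨⟨C, -, h3⟩, h4⟩ := hJ
  have hout : outside = Pool.Agent.TH99.RJ.bad := by
    funext P
    unfold outside Pool.Agent.TH99.RJ.bad
    congr!
  rw [hout]
  exact ⟨hfin, L, Λ, ⟨hL, hprod⟩, ⟨hΛ, hfe, hreal, A, B, hA, conv hBq, hB, hB0, hkey⟩,
    ⟨C, h3⟩, h4⟩

end Pool.Agent.Results.MP_fb225e_nt.JensenNonReal
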