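import Pool.Agent.TH839.UH.Fin2

/-!
# Derivatives of the heat flow of L-functions of elliptic curves over number fields, uniformly

Let `E` be an elliptic curve over a number field `K`, `L(E/K, s)` its Hasse-Weil L-function and
`Λ = A^(s/2) ((2π)^(-s) Γ(s))^[K : ℚ] L(E/K, s)` the completed function.  Let `D = d/ds` and let
`Λ_t = e^{t D²} Λ` be the heat flow.  The Riemann hypothesis for `L(E/K, s)` implies that all zeros of
`D^n Λ_t` are on the line `Re s = 1` for all `n` and all `t ≥ 0`.

Put `ℓ(y) = [K : ℚ] + log (A (1 + |y|)^(2 [K : ℚ]))`, essentially the logarithm of the analytic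
conductor at height `y`.  We prove that there is ONE constant `C` such that all zeros of `D^n Λ_t` at
height `y` are on the line, and are simple, if

  `n + t ℓ(y)² ≥ C ℓ(y)`.

This is proved

* (I) for all elliptic curves over all number fields whose L-function has the properties conjectured by
  Hasse and Weil (`Λ` is entire, of finite order, and `Λ(s) = ± Λ(2 - s)`); so it holds for all `E/ℚ` and
  all number fields `K` for which these properties are known or assumed;
* (II) without any hypothesis for all `E/ℚ` of conductor `N` and all abelian number fields `K` of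
  conductor prime to `N` (given by their groups `G` of Dirichlet characters), in particular `K = ℚ`.

For `t = 0` it says: the zeros of the `n`-th derivative of `Λ` are on the line and simple up to the height
where the logarithm of the analytic conductor is `n / C`.  For `n = 0`: the zeros of `Λ_t` at all heights
with `t ℓ(y) ≥ C`.  For `n t ≥ C` the condition holds for all `y`: then ALL zeros of `D^n Λ_t` are on the
line and simple, for all curves over all number fields, a range of `(n, t)` which depends neither on the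
curve nor on the field nor on its degree.  So the Riemann hypothesis for `L(E/K, s)` is a statement about
the zeros of the functions `D^n Λ_t` with `t > 0`, `n < C/t`, in the region `n + t ℓ(y)² < C ℓ(y)` only.

Proof.  `D^n Λ_t(1 + x + i y)` is (up to normalisation) a sum of two half-line integrals
`h(x) ± conj h(-x)`, and one shows `|h(x)| > |h(-x)|` for `x > 0` by the saddle point method: the saddle
is at distance `S` from the line, where `S ell(S) = n + 2 t ell(S)²` and `ell(S)` is the logarithmic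
derivative of the gamma factor and conductor at distance `S`.  If the saddle is far away the
Gaussian average and the derivative are treated together by convolution of the explicit kernels.  The
archimedean part uses only `Γ` in the right half-plane, and the Euler product only the trivial bound
`|a_v| ≤ Nv`, which makes all constants independent of the degree.

The modules are `Pool.Agent.TH839.UH` (with parts by helpers 71, 194, 761, 921), over the modules
`Pool.Agent.W355.UN` and `Pool.Agent.W169.HF` (uniform heat flow without derivatives),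
`Pool.Agent.H353R7` (derivatives of one function) and `Pool.Agent.H921R2.TatePole` of the starting files.
-/

set_option autoImplicit false

open Complex UpperHalfPlane MatrixGroups CongruenceSubgroup NumberField IsDedekindDomain
open scoped ComplexConjugate

namespace Pool.Agent.Results.MP_fb225e_nt.UniformHeatDerivatives

/-! ### Hasse-Weil L-functions of elliptic curves over number fields -/

/-- `W v` is, for every finite place `v`, an integral model of `E` with discriminant minimal at
`v`. -/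
def MinimalModels {K : Type} [Field K] [NumberField K] (E : WeierstrassCurve K)
    (W : HeightOneSpectrum (𝓞 K) → WeierstrassCurve (𝓞 K)) : Prop :=
  ∀ v : HeightOneSpectrum (𝓞 K),
    (∃ C : WeierstrassCurve.VariableChange K, C • (W v).map (algebraMap (𝓞 K) K) = E) ∧
    ∀ W' : WeierstrassCurve (𝓞 K),
      (∃ C : WeierstrassCurve.VariableChange K, C • W'.map (algebraMap (𝓞 K) K) = E) →
      ∀ n : ℕ, (W v).Δ ∈ v.asIdeal ^ n → W'.Δ ∈ v.asIdeal ^ n

open Classical in
/-- The Euler factor at `v`, `(1 - a_v Nv^{-s} + Nv^{1-2s})⁻¹` if the reduction at `v` is good and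
`(1 - a_v Nv^{-s})⁻¹` if it is bad, where `a_v` is `Nv` minus the number of affine points of the
reduction of `W v`. -/
noncomputable def localFactor {K : Type} [Field K] [NumberField K]
    (W : HeightOneSpectrum (𝓞 K) → WeierstrassCurve (𝓞 K)) (v : HeightOneSpectrum (𝓞 K))
    (s : ℂ) : ℂ :=
  (1 - ((Ideal.absNorm v.asIdeal : ℂ)
        - (Nat.card {xy : (𝓞 K ⧸ v.asIdeal) × (𝓞 K ⧸ v.asIdeal) //
            ((W v).map (Ideal.Quotient.mk v.asIdeal)).toAffine.Equation xy.1 xy.2} : ℂ))
        * (Ideal.absNorm v.asIdeal : ℂ) ^ (-s)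
    + (if (W v).Δ ∈ v.asIdeal then 0 else (Ideal.absNorm v.asIdeal : ℂ))
        * (Ideal.absNorm v.asIdeal : ℂ) ^ (-2 * s))⁻¹

/-- The `L`-function `L(E/K, s)` in the half-plane of convergence, as the Euler product over all
finite places. -/
noncomputable def LSeries {K : Type} [Field K] [NumberField K]
    (W : HeightOneSpectrum (𝓞 K) → WeierstrassCurve (𝓞 K)) (s : ℂ) : ℂ :=
  ∏' v : HeightOneSpectrum (𝓞 K), localFactor W v s

/-- `Λ` is the completed L-function `A^(s/2) ((2π)^(-s) Γ(s))^[K : ℚ] L(E/K, s)`, and it has the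
properties conjectured by Hasse and Weil: it is entire, of finite order, and `Λ(s) = ± Λ(2 - s)`. -/
structure HasseWeil {K : Type} [Field K] [NumberField K]
    (W : HeightOneSpectrum (𝓞 K) → WeierstrassCurve (𝓞 K)) (A : ℝ) (Λ : ℂ → ℂ) : Prop where
  one_le : 1 ≤ A
  entire : Differentiable ℂ Λ
  order : ∃ c ρ : ℝ, ∀ s : ℂ, ‖Λ s‖ ≤ Real.exp (c * (1 + ‖s‖) ^ ρ)
  fe : ∃ w : ℝ, (w = 1 ∨ w = -1) ∧ ∀ s : ℂ, Λ s = w * Λ (2 - s)
  eq : ∃ σ : ℝ, ∀ s : ℂ, σ ≤ s.re → Λ s = (A : ℂ) ^ (s / 2) *
    ((2 * (Real.pi : ℂ)) ^ (-s) * Gamma s) ^ Module.finrank ℚ K * LSeries W s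

/-! ### Elliptic curves over `ℚ` and abelian number fields -/

/-- The coefficient `a_p` of `E : y² = x³ + a x + b` at a prime `p ∤ 2 (4a³ + 27b²)`: `p` minus the
number of pairs `(x, y)` modulo `p` with `y² ≡ x³ + a x + b (mod p)`. -/
noncomputable def ap (a b : ℤ) (p : ℕ) : ℤ :=
  (p : ℤ) - (((Finset.range p ×ˢ Finset.range p).filter
    (fun xy : ℕ × ℕ => (p : ℤ) ∣ (xy.2 : ℤ) ^ 2 -
      ((xy.1 : ℤ) ^ 3 + a * (xy.1 : ℤ) + b))).card : ℤ)

/-- The `n`-th Fourier coefficient of `f`. -/
noncomputable def coef {N : ℕ} (f : CuspForm (Gamma0 N : Subgroup (GL (Fin 2) ℝ)) 2) (n : ℕ) : ℂ :=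
  (qExpansion 1 f).coeff n

/-- `f ∈ S_2(Γ₀(N))` is the newform of the elliptic curve `E : y² = x³ + a x + b` of conductor `N` and
root number `w`: the Fourier coefficients `c(n)` of `f` are real with `c(1) = 1`, they satisfy the
Hecke relations `c(mn) = c(m) c(n)` for coprime `m`, `n` and `c(p^(j+2)) = c(p) c(p^(j+1)) - p c(p^j)`
(without the last term if `p ∣ N`), `f(-1/(Nτ)) = -w N τ² f(τ)`, `c(p) = a_p(E)` for all primes
`p ∤ 2 (4a³ + 27b²)`, `|c(p)| ≤ 2 √p` for all `p ∤ N` (Hasse) and `c(p) = 0, 1, -1` for `p ∣ N`. -/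
structure IsFormOf (a b : ℤ) (N : ℕ) (f : CuspForm (Gamma0 N : Subgroup (GL (Fin 2) ℝ)) 2) (w : ℝ) :
    Prop where
  one : coef f 1 = 1
  real : ∀ n, (coef f n).im = 0
  mul : ∀ m n : ℕ, Nat.Coprime m n → coef f (m * n) = coef f m * coef f n
  pow : ∀ p j : ℕ, p.Prime → coef f (p ^ (j + 2)) = coef f p * coef f (p ^ (j + 1)) -
      (if p ∣ N then 0 else (p : ℂ) * coef f (p ^ j))
  sign : w = 1 ∨ w = -1
  fricke : ∀ τ τ' : ℍ, (τ' : ℂ) * ((N : ℂ) * (τ : ℂ)) = -1 →
    f τ' = -(w : ℂ) * (N : ℂ) * (τ : ℂ) ^ 2 * f τ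
  points : ∀ p : ℕ, p.Prime → ¬ (p : ℤ) ∣ 2 * (4 * a ^ 3 + 27 * b ^ 2) → coef f p = (ap a b p : ℂ)
  good : ∀ p : ℕ, p.Prime → ¬ p ∣ N → ‖coef f p‖ ≤ 2 * Real.sqrt p
  bad : ∀ p : ℕ, p.Prime → p ∣ N → coef f p = 0 ∨ coef f p = 1 ∨ coef f p = -1

/-- The completed L-function of the twist of `E` by `χ` modulo `q`, for `Re s > 3/2`:
`(√N q / 2π)^s Γ(s) ∑ c(n) χ(n) n^(-s)`. -/
noncomputable def twist {N : ℕ} (f : CuspForm (Gamma0 N : Subgroup (GL (Fin 2) ℝ)) 2) {q : ℕ}
    (χ : DirichletCharacter ℂ q) (s : ℂ) : ℂ :=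
  ((Real.sqrt N * q / (2 * Real.pi) : ℝ) : ℂ) ^ s * Complex.Gamma s *
    ∑' n : ℕ, coef f (n + 1) * χ ((n + 1 : ℕ) : ZMod q) * ((n + 1 : ℕ) : ℂ) ^ (-s)

section
variable {M : ℕ} (G : Subgroup (DirichletCharacter ℂ M)) [Fintype G]

/-- `Λ = Λ(E/K, s)`, where `K` is the abelian number field with the group `G` of Dirichlet
characters: `Λ` is entire and, for large real part, it is the product over `χ` in `G` of the completed
L-functions of the twists of `E` by the primitive character associated with `χ`. -/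
def IsCompleted {N : ℕ} (f : CuspForm (Gamma0 N : Subgroup (GL (Fin 2) ℝ)) 2) (Λ : ℂ → ℂ) : Prop :=
  Differentiable ℂ Λ ∧ ∃ σ : ℝ, ∀ s : ℂ, σ ≤ s.re →
    Λ s = ∏ χ : G, twist f (χ : DirichletCharacter ℂ M).primitiveCharacter s

/-- The conductor `A = ∏ N f_χ² = N^[K : ℚ] disc(K)²` of `L(E/K, s)`. -/
noncomputable def condA (N : ℕ) : ℝ :=
  ∏ χ : G, ((N : ℝ) * ((χ : DirichletCharacter ℂ M).conductor : ℝ) ^ 2)

end

/-! ### The heat flow and its derivatives -/

/-- The heat flow `Λ_t = e^{t D²} Λ` (`D = d/ds`) as a Gaussian average: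
`Λ_t(s) = π^(-1/2) ∫ exp (-v²) Λ(s + 2 √t v) dv`. -/
noncomputable def heat (t : ℝ) (Λ : ℂ → ℂ) (s : ℂ) : ℂ :=
  ((1 / Real.sqrt Real.pi : ℝ) : ℂ) *
    ∫ v : ℝ, ((Real.exp (-v ^ 2) : ℝ) : ℂ) * Λ (s + ((2 * Real.sqrt t * v : ℝ) : ℂ))

/-- If `s` is a zero of `D^n Λ_t`, it is on the line `Re s = 1` and it is simple. -/
def OnLineSimple (Λ : ℂ → ℂ) (n : ℕ) (t : ℝ) (s : ℂ) : Prop :=
  iteratedDeriv n (heat t Λ) s = 0 → s.re = 1 ∧ iteratedDeriv (n + 1) (heat t Λ) s ≠ 0

/-- `ℓ(y) = d + log (A (1 + |y|)^(2 d))`: degree of the field plus the logarithm of the analytic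
conductor at height `y`. -/
noncomputable def ell (d : ℕ) (A y : ℝ) : ℝ := d + Real.log (A * (1 + |y|) ^ (2 * d))

/-- The statements on the derivatives of the heat flow of `Λ` (a completed L-function of conductor `A`
over a field of degree `d`), with the constant `C`.

* `zeros`: zeros at height `y` with `n + t ℓ(y)² ≥ C ℓ(y)` are on the line and simple.
* `all`: if `n t ≥ C`, all zeros are on the line and simple.
* `cond`: if `t (d + log A) ≥ C`, all zeros are on the line and simple.
* `grh`: the Riemann hypothesis for `Λ` is equivalent to the statement that the zeros in the remaining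
  regions `n + t ℓ(y)² < C ℓ(y)` for `t > 0` are on the line. -/
structure HeatDerivatives (C : ℝ) (d : ℕ) (A : ℝ) (Λ : ℂ → ℂ) : Prop where
  zeros : ∀ (n : ℕ) (t : ℝ) (s : ℂ), 0 ≤ t → C * ell d A s.im ≤ n + t * ell d A s.im ^ 2 →
    OnLineSimple Λ n t s
  all : ∀ (n : ℕ) (t : ℝ), 0 ≤ t → C ≤ n * t → ∀ s : ℂ, OnLineSimple Λ n t s
  cond : ∀ (n : ℕ) (t : ℝ), 0 ≤ t → C ≤ t * (d + Real.log A) → ∀ s : ℂ, OnLineSimple Λ n t s
  grh : (∀ s : ℂ, Λ s = 0 → s.re = 1) ↔ ∀ (n : ℕ) (t : ℝ) (s : ℂ), 0 < t →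
    n + t * ell d A s.im ^ 2 < C * ell d A s.im → iteratedDeriv n (heat t Λ) s = 0 → s.re = 1

/-- **Main theorem.**  There is one constant `C > 0` such that the statements `HeatDerivatives` hold

* (I) for every elliptic curve over every number field for which the conjecture of Hasse and Weil
  holds;
* (II) for every elliptic curve over `ℚ` of conductor `N` and every abelian number field of conductor
  prime to `N` (group of characters `G` modulo `M`, degree `Fintype.card G`), unconditionally. -/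
theorem result : ∃ C : ℝ, 0 < C ∧
    (∀ (K : Type) [Field K] [NumberField K] (E : WeierstrassCurve K) [E.IsElliptic]
      (W : HeightOneSpectrum (𝓞 K) → WeierstrassCurve (𝓞 K)), MinimalModels E W →
      ∀ (A : ℝ) (Λ : ℂ → ℂ), HasseWeil W A Λ → HeatDerivatives C (Module.finrank ℚ K) A Λ) ∧
    (∀ (a b : ℤ) (N : ℕ) [NeZero N] (f : CuspForm (Gamma0 N : Subgroup (GL (Fin 2) ℝ)) 2) (w : ℝ),
      4 * a ^ 3 + 27 * b ^ 2 ≠ 0 → IsFormOf a b N f w →
      ∀ (M : ℕ) [NeZero M] (G : Subgroup (DirichletCharacter ℂ M)) [Fintype G], Nat.Coprime M N →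
      ∃ Λ : ℂ → ℂ, IsCompleted G f Λ ∧ (∀ Λ' : ℂ → ℂ, IsCompleted G f Λ' → Λ' = Λ) ∧
        (∃ W : ℂ, ‖W‖ = 1 ∧ ∀ s : ℂ, Λ (2 - s) = W * conj (Λ (conj s))) ∧
        HeatDerivatives C (Fintype.card G) (condA G N) Λ) := by
  obtain ⟨C, hC, H1, H2⟩ := Pool.Agent.TH839.UH.flow_all
  refine ⟨C, hC, ?_, ?_⟩
  · intro K _ _ E _ W _ A Λ h
    classical
    have hk : Pool.Agent.TH839.UH.KL
        (fun v : HeightOneSpectrum (𝓞 K) => ((Ideal.absNorm v.asIdeal : ℂ)
          - (Nat.card {xy : (𝓞 K ⧸ v.asIdeal) × (𝓞 K ⧸ v.asIdeal) //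
            ((W v).map (Ideal.Quotient.mk v.asIdeal)).toAffine.Equation xy.1 xy.2} : ℂ)))
        (fun v => if (W v).Δ ∈ v.asIdeal then 0 else (Ideal.absNorm v.asIdeal : ℂ)) A Λ := by
      refine ⟨fun v => Pool.Agent.TH839.UH.trace_le v _, fun v => ?_, fun v => ?_, fun v => ?_,
        h.one_le, h.entire, h.order, h.fe, ?_⟩
      · show ‖(if (W v).Δ ∈ v.asIdeal then 0 else (Ideal.absNorm v.asIdeal : ℂ))‖ ≤
          ((Ideal.absNorm v.asIdeal : ℕ) : ℝ)
        split_ifs
        · rw [norm_zero]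
          exact Nat.cast_nonneg _
        · rw [Complex.norm_natCast]
      · show conj ((Ideal.absNorm v.asIdeal : ℂ) - ((_ : ℕ) : ℂ)) = _
        rw [map_sub, Complex.conj_natCast, Complex.conj_natCast]
      · show conj (if (W v).Δ ∈ v.asIdeal then 0 else (Ideal.absNorm v.asIdeal : ℂ)) = _
        split_ifs
        · rw [map_zero]
        · rw [Complex.conj_natCast]
      · obtain ⟨σ, hσ⟩ := h.eq
        refine ⟨σ, fun s hs => ?_⟩
        rw [hσ s hs]
        congr 1
        unfold LSeries Pool.Agent.TH839.UH.EL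
        refine tprod_congr fun v => ?_
        unfold localFactor Pool.Agent.TH839.UH.NF.gv Pool.Agent.H921R2.TatePole.nm
        congr 1
        ring
    have hfl := H1 K _ _ A Λ hk
    exact ⟨hfl.loc, hfl.hyp, hfl.con, hfl.iff⟩
  · intro a b N _ f w _ hf M _ G _ hco
    have hf' : Pool.Agent.W169.HF.IsForm N f w :=
      { one := hf.one
        real := hf.real
        mul := hf.mul
        pow := hf.pow
        sign := hf.sign
        fricke := hf.fricke
        good := hf.good
        bad := fun p hp hpN => by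
          have h1 : (1 : ℝ) ≤ Real.sqrt p := by
            rw [Real.one_le_sqrt]
            exact_mod_cast hp.one_le
          have h2 : ‖coef f p‖ ≤ 1 := by
            rcases hf.bad p hp hpN with h | h | h <;> simp [h]
          exact h2.trans h1 }
    obtain ⟨Λ, h1, h2, h3, h4⟩ := H2 N f w M G hf' hco
    exact ⟨Λ, ⟨h1, h2⟩, fun Λ' h' => Pool.Agent.W355.UN.Pk.uniq h1 h'.1 h2 h'.2, h3,
      ⟨h4.loc, h4.hyp, h4.con, h4.iff⟩⟩

end Pool.Agent.Results.MP_fb225e_nt.UniformHeatDerivatives
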